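import Pool.Agent.Work.MP_91aed7_am.Interface

set_option autoImplicit false

open Finset

namespace Pool.AM.RK_

noncomputable section

variable {k : Type} [Field k] {n : ℕ}

theorem congr_of_vars (α β : PS k n →ₐ[k] PS k n) (g : PS k n)
    (h : ∀ v ∈ g.vars, α (MvPolynomial.X v) = β (MvPolynomial.X v)) : α g = β g := by
  have := MvPolynomial.hom_congr_vars (f₁ := (α : PS k n →+* PS k n))
    (f₂ := (β : PS k n →+* PS k n)) (p₁ := g) (p₂ := g)
    (by
      ext c
      simp only [RingHom.comp_apply]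
      have h1 := α.commutes c
      have h2 := β.commutes c
      rw [MvPolynomial.algebraMap_eq] at h1 h2
      change MvPolynomial.coeff _ (α (MvPolynomial.C c)) = MvPolynomial.coeff _ (β (MvPolynomial.C c))
      rw [h1, h2])
    (fun v hv _ => h v hv) rfl
  exact this

theorem fix_of_vars (α : PS k n →ₐ[k] PS k n) (g : PS k n)
    (h : ∀ v ∈ g.vars, α (MvPolynomial.X v) = MvPolynomial.X v) : α g = g := by
  have := congr_of_vars α (AlgHom.id k _) g (fun v hv => by rw [h v hv]; rfl)
  rw [this]
  rfl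

open Classical in
/-- the elementary endomorphism -/
def elh (i : Vr n) (f : PS k n) : PS k n →ₐ[k] PS k n :=
  MvPolynomial.aeval (fun v => if v = i then MvPolynomial.X i + f else MvPolynomial.X v)

theorem elh_same (i : Vr n) (f : PS k n) :
    elh i f (MvPolynomial.X i) = MvPolynomial.X i + f := by
  unfold elh
  rw [MvPolynomial.aeval_X, if_pos rfl]

theorem elh_other {i v : Vr n} (f : PS k n) (h : v ≠ i) :
    elh i f (MvPolynomial.X v) = MvPolynomial.X v := by
  unfold elh
  rw [MvPolynomial.aeval_X, if_neg h]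

theorem elh_fix {i : Vr n} (f : PS k n) {g : PS k n} (h : i ∉ g.vars) : elh i f g = g :=
  fix_of_vars _ _ fun v hv => elh_other f (by rintro rfl; exact h hv)

theorem elh_comp {i : Vr n} {f g : PS k n} (hf : i ∉ f.vars) :
    (elh i g).comp (elh i f) = elh i (f + g) := by
  apply MvPolynomial.algHom_ext
  intro v
  rw [AlgHom.comp_apply]
  by_cases hv : v = i
  · subst hv
    rw [elh_same, elh_same, map_add, elh_same, elh_fix _ hf]
    ring
  · rw [elh_other _ hv, elh_other _ hv, elh_other _ hv]

theorem elh_zero (i : Vr n) : elh i (0 : PS k n) = AlgHom.id k _ := by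
  apply MvPolynomial.algHom_ext
  intro v
  by_cases hv : v = i
  · subst hv
    rw [elh_same, add_zero]
    rfl
  · rw [elh_other _ hv]
    rfl

theorem vars_neg' {i : Vr n} {f : PS k n} (hf : i ∉ f.vars) : i ∉ (-f).vars := by
  rwa [MvPolynomial.vars_neg]

/-- the elementary automorphism -/
theorem exists_el {i : Vr n} {f : PS k n} (hf : i ∉ f.vars) :
    ∃ τ ∈ Tm k (Vr n), τ (MvPolynomial.X i) = MvPolynomial.X i + f ∧
      τ⁻¹ (MvPolynomial.X i) = MvPolynomial.X i - f ∧
      (∀ v, v ≠ i → τ (MvPolynomial.X v) = MvPolynomial.X v) ∧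
      (∀ v, v ≠ i → τ⁻¹ (MvPolynomial.X v) = MvPolynomial.X v) ∧
      (∀ g : PS k n, i ∉ g.vars → τ g = g) ∧ (∀ g : PS k n, i ∉ g.vars → τ⁻¹ g = g) := by
  have h1 : (elh i f).comp (elh i (-f)) = AlgHom.id k _ := by
    rw [elh_comp (vars_neg' hf), neg_add_cancel, elh_zero]
  have h2 : (elh i (-f)).comp (elh i f) = AlgHom.id k _ := by
    rw [elh_comp hf, add_neg_cancel, elh_zero]
  let τ : PS k n ≃ₐ[k] PS k n := AlgEquiv.ofAlgHom (elh i f) (elh i (-f)) h1 h2
  have e1 : ∀ g, τ g = elh i f g := fun g => rfl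
  have e2 : ∀ g, τ⁻¹ g = elh i (-f) g := fun g => rfl
  refine ⟨τ, Subgroup.subset_closure (Or.inl ⟨i, f, hf, ?_, ?_⟩), ?_, ?_, ?_, ?_, ?_, ?_⟩
  · rw [e1, elh_same]
  · intro v hv
    rw [e1, elh_other _ hv]
  · rw [e1, elh_same]
  · rw [e2, elh_same, sub_eq_add_neg]
  · intro v hv
    rw [e1, elh_other _ hv]
  · intro v hv
    rw [e2, elh_other _ hv]
  · intro g hg
    rw [e1, elh_fix _ hg]
  · intro g hg
    rw [e2, elh_fix _ hg]

theorem notMem_vars_mul {i : Vr n} {f g : PS k n} (hf : i ∉ f.vars) (hg : i ∉ g.vars) :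
    i ∉ (f * g).vars := by
  classical
  intro h
  rcases Finset.mem_union.1 (MvPolynomial.vars_mul f g h) with h | h
  · exact hf h
  · exact hg h

theorem notMem_vars_pderiv {i z : Vr n} {f : PS k n} (hf : z ∉ f.vars) :
    z ∉ (MvPolynomial.pderiv i f).vars := by
  classical
  intro h
  rw [MvPolynomial.mem_vars_iff_mem_support] at h
  obtain ⟨m, hm, hz⟩ := h
  rw [MvPolynomial.mem_support_iff] at hm
  apply hf
  rw [MvPolynomial.mem_vars_iff_mem_support]
  by_contra hcon
  push Not at hcon
  apply hm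
  have hs : f = f.support.sum fun m' => MvPolynomial.monomial m' (f.coeff m') := f.as_sum
  rw [hs, map_sum, MvPolynomial.coeff_sum]
  apply Finset.sum_eq_zero
  intro m' hm'
  rw [MvPolynomial.pderiv_monomial, MvPolynomial.coeff_monomial]
  split_ifs with he
  · exfalso
    apply hcon m' hm'
    rw [Finsupp.mem_support_iff] at hz ⊢
    rw [← he] at hz
    rw [Finsupp.coe_tsub, Pi.sub_apply] at hz
    omega
  · rfl

theorem mkDer_single (i : Vr n) (d : PS k n) (f : PS k n) :
    MvPolynomial.mkDerivation k (Pi.single i d : Vr n → PS k n) f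
      = d * MvPolynomial.pderiv i f := by
  have : MvPolynomial.mkDerivation k (Pi.single i d : Vr n → PS k n)
      = d • (MvPolynomial.pderiv i : Derivation k (PS k n) (PS k n)) := by
    apply MvPolynomial.derivation_ext
    intro v
    rw [MvPolynomial.mkDerivation_X, Derivation.smul_apply, smul_eq_mul]
    by_cases hv : v = i
    · subst hv
      rw [Pi.single_eq_same, MvPolynomial.pderiv_X_self, mul_one]
    · rw [Pi.single_eq_of_ne hv, MvPolynomial.pderiv_X_of_ne hv, mul_zero]
  rw [this, Derivation.smul_apply, smul_eq_mul]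

end

end Pool.AM.RK_

namespace Pool.AM

open RK_

theorem stmt_RK (hJ : Stmt_J) (hLV : Stmt_LV) (_hRA : Stmt_RA) : Stmt_RK := by
  intro k _ n w a b i N g h hw hb hia hab hNi hNg hNh hig hg hh
  have J0 := hJ k n
  have L0 := hLV k n
  set z : Vr n := Sum.inr N with hz
  have hwz : wt z = 1 := rfl
  have hwi : wt i ≤ 1 := by
    rcases i with i | i
    · exact Nat.zero_le _
    · exact le_rfl
  have hXz : (MvPolynomial.X z : PS k n) ∈ J k n 1 := J0.X_mem z
  -- the automorphisms
  obtain ⟨nu, hnuT, nu1, nu2, nu3, nu4, nu5, nu6⟩ := exists_el (k := k) (i := z) (f := h) hNh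
  have hzg : i ∉ (MvPolynomial.X z * g : PS k n).vars := by
    apply notMem_vars_mul _ hig
    rw [MvPolynomial.vars_X]
    simpa using hNi.symm
  obtain ⟨om, homT, om1, om2, om3, om4, om5, om6⟩ := exists_el (k := k) hzg
  have hrv : z ∉ (h * g * MvPolynomial.pderiv i h : PS k n).vars :=
    notMem_vars_mul (notMem_vars_mul hNh hNg) (notMem_vars_pderiv hNh)
  obtain ⟨ro, hroT, ro1, ro2, ro3, ro4, ro5, ro6⟩ := exists_el (k := k) hrv
  set Dl : PS k n := nu (om h) - h with hDl
  have hD' : nu (om h) = h + Dl := by rw [hDl]; ring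
  set κ : PS k n ≃ₐ[k] PS k n := nu * om * nu⁻¹ * om⁻¹ with hκ
  have hκa : ∀ x, κ x = nu (om (nu⁻¹ (om⁻¹ x))) := fun x => rfl
  have κi : κ (MvPolynomial.X i) = MvPolynomial.X i + g * h + g * Dl := by
    have e1 : nu⁻¹ (om⁻¹ (MvPolynomial.X i)) = MvPolynomial.X i - (MvPolynomial.X z - h) * g := by
      rw [om2, map_sub, map_mul, nu4 i hNi.symm, nu2, nu6 g hNg]
    have e2 : om (MvPolynomial.X i - (MvPolynomial.X z - h) * g)
        = MvPolynomial.X i + om h * g := by
      rw [map_sub, map_mul, map_sub, om1, om3 z hNi, om5 g hig]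
      ring
    rw [hκa, e1, e2, map_add, map_mul, nu3 i hNi.symm, nu5 g hNg, hD']
    ring
  have κz : κ (MvPolynomial.X z) = MvPolynomial.X z - Dl := by
    rw [hκa, om4 z hNi, nu2, map_sub, om3 z hNi, map_sub, nu1, hD']
    ring
  have κo : ∀ v, v ≠ i → v ≠ z → κ (MvPolynomial.X v) = MvPolynomial.X v := by
    intro v h1 h2
    rw [hκa, om4 v h1, nu4 v h2, om3 v h1, nu3 v h2]
  -- Taylor
  have hδ : (MvPolynomial.X z + h) * g ∈ J k n (1 + a) := by
    apply J0.mul _ hg
    exact Submodule.add_mem _ hXz (J0.mono hb hh)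
  have hβ : nu (om h) = elh i ((MvPolynomial.X z + h) * g) h := by
    have := congr_of_vars ((nu : PS k n →ₐ[k] PS k n).comp (om : PS k n →ₐ[k] PS k n))
      (elh i ((MvPolynomial.X z + h) * g)) h (by
        intro v hv
        have hvz : v ≠ z := by rintro rfl; exact hNh hv
        rw [AlgHom.comp_apply]
        change nu (om _) = _
        by_cases hvi : v = i
        · subst hvi
          rw [om1, map_add, map_mul, nu3 _ hNi.symm, nu1, nu5 g hNg, elh_same]
        · rw [om3 v hvi, nu3 v hvz, elh_other _ hvi])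
    exact this
  have hT := J0.taylor (elh i ((MvPolynomial.X z + h) * g))
    (Pi.single i ((MvPolynomial.X z + h) * g)) (1 + a - wt i)
    (by
      intro v
      by_cases hvi : v = i
      · subst hvi
        rw [elh_same, Pi.single_eq_same]
      · rw [elh_other _ hvi, Pi.single_eq_of_ne hvi, add_zero])
    (by
      intro v
      by_cases hvi : v = i
      · subst hvi
        rw [Pi.single_eq_same]
        exact J0.mono (by omega) hδ
      · rw [Pi.single_eq_of_ne hvi]
        exact Submodule.zero_mem _) hh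
  rw [mkDer_single, ← hβ, ← hDl] at hT
  have hph : MvPolynomial.pderiv i h ∈ J k n (b - wt i) := J0.pd' i hh
  have hDd : (MvPolynomial.X z + h) * g * MvPolynomial.pderiv i h ∈ J k n (w + 1) :=
    J0.mono (by omega) (J0.mul hδ hph)
  have hDT : Dl - (MvPolynomial.X z + h) * g * MvPolynomial.pderiv i h ∈ J k n (w + 2) :=
    J0.mono (by omega) hT
  have hDl1 : Dl ∈ J k n (w + 1) := by
    have : Dl = (Dl - (MvPolynomial.X z + h) * g * MvPolynomial.pderiv i h) +
      (MvPolynomial.X z + h) * g * MvPolynomial.pderiv i h := by ring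
    rw [this]
    exact Submodule.add_mem _ (J0.mono (by omega) hDT) hDd
  have hgD : g * Dl ∈ J k n (w + wt i + 1) := J0.mono (by omega) (J0.mul hg hDl1)
  have hgh : g * h ∈ J k n (w + wt i) := J0.mono (by omega) (J0.mul hg hh)
  have hlev : Lvl w κ := by
    intro v
    by_cases hvi : v = i
    · subst hvi
      rw [κi]
      have : (MvPolynomial.X v + g * h + g * Dl - MvPolynomial.X v : PS k n)
        = g * h + g * Dl := by ring
      rw [this]
      exact Submodule.add_mem _ hgh (J0.mono (by omega) hgD)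
    · by_cases hvz : v = z
      · rw [hvz, κz]
        have : (MvPolynomial.X z - Dl - MvPolynomial.X z : PS k n) = -Dl := by ring
        rw [this, hwz]
        exact Submodule.neg_mem _ hDl1
      · rw [κo v hvi hvz, sub_self]
        exact Submodule.zero_mem _
  have hpg : MvPolynomial.pderiv i (g * h) = g * MvPolynomial.pderiv i h := by
    rw [Derivation.leibniz, MvPolynomial.pderiv_eq_zero_of_notMem_vars hig, smul_zero, add_zero,
      smul_eq_mul]
  have hzi : z ≠ i := hNi
  have KKi : KK i z (g * h) i = g * h := by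
    unfold KK
    rw [Pi.sub_apply, Pi.single_eq_same, Pi.single_eq_of_ne hzi.symm, sub_zero]
  have KKz : KK i z (g * h) z = -(g * MvPolynomial.pderiv i h * MvPolynomial.X z) := by
    unfold KK
    rw [Pi.sub_apply, Pi.single_eq_same, Pi.single_eq_of_ne hzi, zero_sub, hpg]
  have KKo : ∀ v, v ≠ i → v ≠ z → KK i z (g * h) v = 0 := by
    intro v h1 h2
    unfold KK
    rw [Pi.sub_apply, Pi.single_eq_of_ne h1, Pi.single_eq_of_ne h2, sub_zero]
  refine ⟨?_, κ * ro, ?_, ?_⟩
  · intro v
    by_cases hvi : v = i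
    · subst hvi
      rw [KKi]
      exact hgh
    · by_cases hvz : v = z
      · rw [hvz, KKz, hwz]
        exact Submodule.neg_mem _ (J0.mono (by omega) (J0.mul (J0.mul hg hph) hXz))
      · rw [KKo v hvi hvz]
        exact Submodule.zero_mem _
  · exact Subgroup.mul_mem _ (Subgroup.mul_mem _ (Subgroup.mul_mem _ (Subgroup.mul_mem _ hnuT homT)
      (Subgroup.inv_mem _ hnuT)) (Subgroup.inv_mem _ homT)) hroT
  · intro v
    rw [AlgEquiv.mul_apply]
    by_cases hvi : v = i
    · subst hvi
      rw [ro3 _ hNi.symm, κi, KKi]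
      have : (MvPolynomial.X v + g * h + g * Dl - MvPolynomial.X v - g * h : PS k n)
        = g * Dl := by ring
      rw [this]
      exact hgD
    · by_cases hvz : v = z
      · rw [hvz, ro1, map_add, κz, KKz, hwz]
        have hp := (L0.pres hlev (r := b + a + (b - wt i))
          (J0.mono (by omega) (J0.mul (J0.mul hh hg) hph) :
            h * g * MvPolynomial.pderiv i h ∈ J k n (b + a + (b - wt i)))).2
        have : (MvPolynomial.X z - Dl + κ (h * g * MvPolynomial.pderiv i h) - MvPolynomial.X z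
            - -(g * MvPolynomial.pderiv i h * MvPolynomial.X z) : PS k n)
          = -(Dl - (MvPolynomial.X z + h) * g * MvPolynomial.pderiv i h) +
            (κ (h * g * MvPolynomial.pderiv i h) - h * g * MvPolynomial.pderiv i h) := by ring
        rw [this]
        exact Submodule.add_mem _ (Submodule.neg_mem _ hDT) (J0.mono (by omega) hp)
      · rw [ro3 v hvz, κo v hvi hvz, KKo v hvi hvz, sub_self, sub_zero]
        exact Submodule.zero_mem _

end Pool.AM
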