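import Pool.Agent.Work.MP_91aed7_am.Interface

set_option autoImplicit false

open Finset

namespace Pool.AM.RKK_

noncomputable section

variable {k : Type} [Field k] {n : ℕ}

theorem KK_add (i z : Vr n) (f g : PS k n) : KK i z (f + g) = KK i z f + KK i z g := by
  unfold KK
  rw [Pi.single_add, map_add, add_mul, Pi.single_add]
  abel

theorem KK_zero (i z : Vr n) : KK i z (0 : PS k n) = 0 := by
  unfold KK
  rw [Pi.single_zero, map_zero, zero_mul, Pi.single_zero, sub_zero]

theorem real_sum (R0 : RALaws k n) {w : ℕ} (hw : 1 ≤ w) (i z : Vr n) {α : Type} (s : Finset α)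
    (f : α → PS k n) (h : ∀ a ∈ s, Real w (KK i z (f a))) : Real w (KK i z (∑ a ∈ s, f a)) := by
  classical
  induction s using Finset.induction_on with
  | empty =>
    rw [Finset.sum_empty, KK_zero]
    exact R0.zero w
  | insert a s ha ih =>
    rw [Finset.sum_insert ha, KK_add]
    exact R0.add hw (h a (Finset.mem_insert_self _ _))
      (ih fun b hb => h b (Finset.mem_insert_of_mem hb))

theorem real_deep (J0 : JLaws k n) (R0 : RALaws k n) {w : ℕ} {i : Vr n} {N : ℕ} (f : PS k n)
    (hN : (Sum.inr N : Vr n) ≠ i) (hf : f ∈ J k n (w + wt i + 1)) :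
    Real w (KK i (Sum.inr N) f) := by
  apply R0.congr (R0.zero w)
  intro v
  rw [Pi.zero_apply, sub_zero]
  have hp : MvPolynomial.pderiv i f * MvPolynomial.X (Sum.inr N) ∈ J k n (w + 1 + 1) := by
    apply J0.mul (J0.pd i (r := w + 1) ?_) (J0.X_mem (Sum.inr N))
    rw [show w + 1 + wt i = w + wt i + 1 by ring]
    exact hf
  unfold KK
  rw [Pi.sub_apply]
  by_cases h1 : v = i
  · subst h1
    rw [Pi.single_eq_same, Pi.single_eq_of_ne hN.symm, sub_zero]
    exact hf
  · rw [Pi.single_eq_of_ne h1, zero_sub]
    apply Submodule.neg_mem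
    by_cases h2 : v = Sum.inr N
    · subst h2
      rw [Pi.single_eq_same]
      exact hp
    · rw [Pi.single_eq_of_ne h2]
      exact Submodule.zero_mem _

theorem mono_mem {m : Vr n →₀ ℕ} {c : k} {r : ℕ} (h : r ≤ ydeg m) :
    (MvPolynomial.monomial m c : PS k n) ∈ J k n r := by
  intro m' hm'
  have := MvPolynomial.support_monomial_subset hm'
  rw [Finset.mem_singleton] at this
  rw [this]
  exact h

theorem ydeg_add (m m' : Vr n →₀ ℕ) : ydeg (m + m') = ydeg m + ydeg m' := by
  unfold ydeg
  exact Finsupp.sum_add_index' (fun _ => zero_mul _) (fun _ _ _ => add_mul _ _ _)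

theorem ydeg_single (v : Vr n) (e : ℕ) : ydeg (Finsupp.single v e) = e * wt v := by
  unfold ydeg
  rw [Finsupp.sum_single_index (zero_mul _)]

theorem notMem_vars_monomial {v : Vr n} {m : Vr n →₀ ℕ} {c : k} (h : m v = 0) :
    v ∉ (MvPolynomial.monomial m c : PS k n).vars := by
  intro hv
  rw [MvPolynomial.mem_vars_iff_mem_support] at hv
  obtain ⟨m', hm', hv⟩ := hv
  have := MvPolynomial.support_monomial_subset hm'
  rw [Finset.mem_singleton] at this
  rw [this, Finsupp.mem_support_iff] at hv
  exact hv h

theorem coeff_of_notMem_vars {v : Vr n} {f : PS k n} (h : v ∉ f.vars) {m : Vr n →₀ ℕ}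
    (hm : m ∈ f.support) : m v = 0 := by
  by_contra hne
  apply h
  rw [MvPolynomial.mem_vars_iff_mem_support]
  exact ⟨m, hm, Finsupp.mem_support_iff.2 hne⟩

end

end Pool.AM.RKK_

namespace Pool.AM

open RKK_

theorem stmt_RKK (hJ : Stmt_J) (hRA : Stmt_RA) (hRK : Stmt_RK) (hRP : Stmt_RP) : Stmt_RKK := by
  intro k _ n w i N f hw hNi hNf hf
  have J0 := hJ k n
  have R0 := hRA k n
  rcases i with i | j
  · -- a variable `x_i`
    have h1 := hRK k n w 0 w (Sum.inl i) N 1 f hw hw (Nat.zero_le _) (by
      change 0 + w = w + 0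
      omega) hNi (by rw [MvPolynomial.vars_one]; exact Finset.notMem_empty _) hNf
      (by rw [MvPolynomial.vars_one]; exact Finset.notMem_empty _) (J0.zero 1)
      (by
        have : w + wt (Sum.inl i : Vr n) = w := rfl
        rwa [this] at hf)
    rwa [one_mul] at h1
  · have hNj : N ≠ j := fun h => hNi (by rw [h])
    rw [f.as_sum]
    apply real_sum R0 hw
    intro m hm
    have hmw : w + 1 ≤ ydeg m := hf m hm
    have hmN : m (Sum.inr N) = 0 := coeff_of_notMem_vars hNf hm
    set c := MvPolynomial.coeff m f with hc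
    by_cases hdeep : w + 2 ≤ ydeg m
    · exact real_deep J0 R0 _ hNi (mono_mem hdeep)
    have hmw' : ydeg m = w + 1 := by omega
    by_cases hl : ∃ l, l ≠ j ∧ m (Sum.inr l) ≠ 0
    · obtain ⟨l, hlj, hml⟩ := hl
      have hlN : l ≠ N := by rintro rfl; exact hml hmN
      obtain ⟨m', hm'⟩ : ∃ m', m = Finsupp.single (Sum.inr l : Vr n) 1 + m' := by
        refine ⟨m - Finsupp.single (Sum.inr l : Vr n) 1, ?_⟩
        rw [add_tsub_cancel_of_le]
        rw [Finsupp.single_le_iff]
        omega
      have hy : ydeg m' = w := by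
        rw [hm', ydeg_add, ydeg_single] at hmw'
        have : wt (Sum.inr l : Vr n) = 1 := rfl
        rw [this] at hmw'
        omega
      have hm'N : m' (Sum.inr N) = 0 := by
        rw [hm', Finsupp.add_apply] at hmN
        omega
      have h1 := hRK k n w 1 w (Sum.inr j) N (MvPolynomial.X (Sum.inr l))
        (MvPolynomial.monomial m' c) hw hw le_rfl (by
          change 1 + w = w + 1
          omega) hNi
        (by rw [MvPolynomial.vars_X, Finset.mem_singleton]; intro h; exact hlN (Sum.inr.inj h).symm)
        (notMem_vars_monomial hm'N)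
        (by rw [MvPolynomial.vars_X, Finset.mem_singleton]; intro h; exact hlj (Sum.inr.inj h).symm)
        (J0.X_mem (Sum.inr l)) (mono_mem hy.ge)
      have he : (MvPolynomial.X (Sum.inr l) * MvPolynomial.monomial m' c : PS k n)
          = MvPolynomial.monomial m c := by
        rw [MvPolynomial.X, MvPolynomial.monomial_mul, one_mul, ← hm']
      rwa [he] at h1
    · push Not at hl
      obtain ⟨m', hm'⟩ : ∃ m', m = m' + Finsupp.single (Sum.inr j : Vr n) (w + 1) ∧
          m' (Sum.inr j) = 0 := by
        have hsplit : m.erase (Sum.inr j) + Finsupp.single (Sum.inr j : Vr n) (m (Sum.inr j)) = m :=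
          Finsupp.erase_add_single _ _
        have h0 : ydeg (m.erase (Sum.inr j)) = 0 := by
          unfold ydeg
          apply Finset.sum_eq_zero
          intro v hv
          rcases v with v | v
          · exact mul_zero _
          · by_cases hvj : v = j
            · subst hvj
              simp at hv
            · rw [Finsupp.erase_ne (by intro h; exact hvj (Sum.inr.inj h)), hl v hvj]
              exact zero_mul _
        have h2 : m (Sum.inr j) = w + 1 := by
          have := hmw'
          rw [← hsplit, ydeg_add, h0, ydeg_single] at this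
          have h3 : wt (Sum.inr j : Vr n) = 1 := rfl
          rw [h3] at this
          omega
        refine ⟨m.erase (Sum.inr j), ?_, Finsupp.erase_same⟩
        rw [← h2]
        exact hsplit.symm
      obtain ⟨hm', hm'j⟩ := hm'
      have hm'N : m' (Sum.inr N) = 0 := by
        rw [hm', Finsupp.add_apply] at hmN
        omega
      have h1 := hRP k n w j N (MvPolynomial.monomial m' c) hw hNj (notMem_vars_monomial hm'j)
        (notMem_vars_monomial hm'N)
      have he : (MvPolynomial.monomial m' c * MvPolynomial.X (Sum.inr j) ^ (w + 1) : PS k n)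
          = MvPolynomial.monomial m c := by
        rw [MvPolynomial.X_pow_eq_monomial, MvPolynomial.monomial_mul, mul_one, ← hm']
      rwa [he] at h1

end Pool.AM
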